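import Pool.Agent.GPC.Main

/-!
# The period conjecture up to bounded complexity for 100 percent of the products of elliptic
curves over the rational numbers

For all `g, D, A`: for 100 percent of the `g`-tuples of elliptic curves
`y ^ 2 = x ^ 3 + a x + b`, `|a| ≤ X ^ 2`, `|b| ≤ X ^ 3`, every polynomial with integer
coefficients of degree at most `D` and height at most `X ^ A` which vanishes at the full period
point of the product of the `g` curves vanishes on the whole torsor `det (M i) = lam`.
-/

open scoped BigOperators

open Pool.Agent.GPC in
theorem Pool.Agent.GPC.Old.ellipticPeriods (g D A : ℕ) :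
    (∀ L : PeriodPair, Reduced L → (perMat L).det = -(2 * Real.pi * Complex.I)) ∧
    Filter.Tendsto (fun X : ℕ =>
      (Nat.card {p : Fin g → ℤ × ℤ // (∀ i, p i ∈ box X) ∧ Bad D (X ^ A) p} : ℝ) /
        ((box X).card : ℝ) ^ g) Filter.atTop (nhds 0) :=
  Main.final g D A
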